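import Pool.Agent.Helper82.SG.St

/-!
# Project SG (MP_e46579_co): module PNE (a network for a piece)
-/

set_option autoImplicit false

namespace Pool.Agent.Helper43.SG

open Finset Real MeasureTheory Pool.Agent.Helper77.Steiner Pool.Agent.Helper82.SG
open Pool.Agent.Helper18.GP (nlen NConn)
open scoped ENNReal

private theorem mem_ins {E : Type} [DecidableEq E] {V : Finset E} {w y : E} (h : y ∈ V) : y ∈ insert w V :=
  Finset.mem_insert_of_mem h

open Classical in
theorem hPNE (hGEO : StGEO) : StPNE := by
  intro E _ A h n x par K U θ t cut top a hc ha j hj htop
  have top_le : ∀ i ≤ n, top i ≤ i := fun i hi => (hGEO A h n x par K U θ t cut top hc i hi).1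
  have hpos : ∀ v, 0 ≤ h v := by
    obtain ⟨δ, h1, h2⟩ := hc.sc.pos
    exact fun v => h1.le.trans (h2 v)
  have key : ∀ m, j ≤ m → m ≤ n → ∃ (V : Finset E) (l : ℝ), Net V l ∧ (∀ i ≤ m, top i = j → x i ∈ V) ∧
      (∀ i, 1 ≤ i → i ≤ m → cut i → top (par i) = j → a i ∈ V) ∧
      l ≤ ∑ i ∈ Icc 1 m, (if ¬ cut i ∧ top i = j then dist (x (par i)) (x i) else 0) +
        ∑ i ∈ Icc 1 m, (if cut i ∧ top (par i) = j then 2 * h (x (par i)) else 0) := by
    intro m hm
    induction m, hm using Nat.le_induction with
    | base =>
      intro _
      refine ⟨{x j}, 0, Net.single (x j), ?_, ?_, ?_⟩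
      · intro i hi hti
        have h1 := top_le i (hi.trans hj)
        have h2 : i = j := by omega
        rw [h2]
        exact Finset.mem_singleton_self _
      · intro i hi1 hi _ hti
        exfalso
        have h1 := hc.par_lt i hi1 (hi.trans hj)
        have h2 := top_le (par i) (by omega)
        omega
      · refine add_nonneg (Finset.sum_nonneg fun i _ => ?_) (Finset.sum_nonneg fun i _ => ?_)
        · split_ifs
          · exact dist_nonneg
          · exact le_rfl
        · split_ifs
          · exact mul_nonneg zero_le_two (hpos _)
          · exact le_rfl
    | succ m hm ih =>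
      intro hmn
      obtain ⟨V, l, hN, hx, hcut, hl⟩ := ih (by omega)
      have hp := hc.par_lt (m + 1) (by omega) hmn
      rw [Finset.sum_Icc_succ_top (by omega), Finset.sum_Icc_succ_top (by omega)]
      by_cases hct : cut (m + 1)
      · have ht1 := hc.top1 (m + 1) (by omega) hmn hct
        by_cases hpt : top (par (m + 1)) = j
        · have hpV : x (par (m + 1)) ∈ V := hx _ (by omega) hpt
          refine ⟨insert (a (m + 1)) V, l + dist (x (par (m + 1))) (a (m + 1)), Net.step hN hpV _, ?_, ?_, ?_⟩
          · intro i hi hti
            rcases Nat.lt_or_ge i (m + 1) with h1 | h1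
            · exact mem_ins (hx i (by omega) hti)
            · exfalso
              have : i = m + 1 := by omega
              rw [this, ht1] at hti
              omega
          · intro i hi1 hi hci hti
            rcases Nat.lt_or_ge i (m + 1) with h1 | h1
            · exact mem_ins (hcut i hi1 (by omega) hci hti)
            · have : i = m + 1 := by omega
              rw [this]
              exact Finset.mem_insert_self _ _
          · rw [if_neg (by tauto), if_pos ⟨hct, hpt⟩]
            have := ha (m + 1) (by omega) hmn hct
            linarith
        · refine ⟨V, l, hN, ?_, ?_, ?_⟩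
          · intro i hi hti
            rcases Nat.lt_or_ge i (m + 1) with h1 | h1
            · exact hx i (by omega) hti
            · exfalso
              have : i = m + 1 := by omega
              rw [this, ht1] at hti
              omega
          · intro i hi1 hi hci hti
            rcases Nat.lt_or_ge i (m + 1) with h1 | h1
            · exact hcut i hi1 (by omega) hci hti
            · exfalso
              have : i = m + 1 := by omega
              rw [this] at hti
              exact hpt hti
          · rw [if_neg (by tauto), if_neg (by tauto)]
            linarith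
      · have ht2 := hc.top2 (m + 1) (by omega) hmn hct
        by_cases hpt : top (par (m + 1)) = j
        · have hpV : x (par (m + 1)) ∈ V := hx _ (by omega) hpt
          refine ⟨insert (x (m + 1)) V, l + dist (x (par (m + 1))) (x (m + 1)), Net.step hN hpV _, ?_, ?_, ?_⟩
          · intro i hi hti
            rcases Nat.lt_or_ge i (m + 1) with h1 | h1
            · exact mem_ins (hx i (by omega) hti)
            · have : i = m + 1 := by omega
              rw [this]
              exact Finset.mem_insert_self _ _
          · intro i hi1 hi hci hti
            rcases Nat.lt_or_ge i (m + 1) with h1 | h1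
            · exact mem_ins (hcut i hi1 (by omega) hci hti)
            · exfalso
              have : i = m + 1 := by omega
              rw [this] at hci
              exact hct hci
          · rw [if_pos ⟨hct, by rw [ht2, hpt]⟩, if_neg (by tauto)]
            linarith
        · refine ⟨V, l, hN, ?_, ?_, ?_⟩
          · intro i hi hti
            rcases Nat.lt_or_ge i (m + 1) with h1 | h1
            · exact hx i (by omega) hti
            · exfalso
              have : i = m + 1 := by omega
              rw [this, ht2] at hti
              exact hpt hti
          · intro i hi1 hi hci hti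
            rcases Nat.lt_or_ge i (m + 1) with h1 | h1
            · exact hcut i hi1 (by omega) hci hti
            · exfalso
              have : i = m + 1 := by omega
              rw [this] at hci
              exact hct hci
          · rw [if_neg (by rw [ht2]; tauto), if_neg (by tauto)]
            linarith
  obtain ⟨V, l, hN, hx, hcut, hl⟩ := key n hj le_rfl
  rw [Finset.sum_filter, Finset.sum_filter]
  by_cases hjc : 1 ≤ j ∧ cut j
  · have h1 : Net (insert (x (par j)) V) (l + dist (x j) (x (par j))) := Net.step hN (hx j hj htop) _
    have h2 : Net (insert (a j) (insert (x (par j)) V)) (l + dist (x j) (x (par j)) + dist (x (par j)) (a j)) :=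
      Net.step h1 (Finset.mem_insert_self _ _) _
    refine ⟨_, _, h2, fun i hi hti => mem_ins (mem_ins (hx i hi hti)),
      fun i hi1 hi hci hti => mem_ins (mem_ins (hcut i hi1 hi hci hti)), fun _ _ => Finset.mem_insert_self _ _, ?_⟩
    rw [if_pos hjc]
    have h3 := ha j hjc.1 hj hjc.2
    have h4 : dist (x j) (x (par j)) = dist (x (par j)) (x j) := dist_comm _ _
    linarith
  · refine ⟨V, l, hN, hx, hcut, fun h1 h2 => absurd ⟨h1, h2⟩ hjc, ?_⟩
    rw [if_neg hjc, add_zero]
    exact hl

end Pool.Agent.Helper43.SG
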